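import Mathlib
import Pool.Agent.Q87.UniH

/-!
# Halmos's weighted shift `W e_n = 2^(-|n|) e_(n+1)` has only the obvious invariant subspaces

(MP_1e8505_an, Q2.) The same holds for every bilateral weighted shift whose weights decrease at
least geometrically in both directions.

Idea: let `g` be orthogonal to the orbit of `f`. With `A_m`, `B_j` the coordinates of `f` at `-m`
and of `conj g` at `j`, multiplied by the products of the weights between `-m` and `0`, respectively
`0` and `j`, orthogonality says that the product of the entire functions `F = ∑ A_m z^m` and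
`G = ∑ B_j z^j` has much smaller coefficients than two such functions can have, unless `F` is
constant or `G = 0`. This is proved with the Mahler measure on circles of well chosen radii.
-/

set_option autoImplicit false

namespace Pool.Agent.Results.MP_1e8505_an.HalmosShift

/-- complex `ℓ²(ℤ)` -/
abbrev EllTwo : Type := lp (fun _ : ℤ => ℂ) 2

/-- the orthonormal basis `e_n`, `n ∈ ℤ` -/
noncomputable def e (n : ℤ) : EllTwo := lp.single 2 n (1 : ℂ)

/-- `M` is a closed subspace invariant under `T` -/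
def IsInvariant (T : EllTwo →L[ℂ] EllTwo) (M : Submodule ℂ EllTwo) : Prop :=
  IsClosed (M : Set EllTwo) ∧ ∀ x ∈ M, T x ∈ M

/-- the subspace `M_k` of the vectors whose coordinates with index `n < k` vanish -/
def tail (k : ℤ) : Submodule ℂ EllTwo where
  carrier := {f | ∀ n : ℤ, n < k → f n = 0}
  add_mem' := by
    intro f g hf hg n hn
    change f n + g n = 0
    rw [hf n hn, hg n hn, add_zero]
  zero_mem' := by
    intro n _
    rfl
  smul_mem' := by
    intro c f hf n hn
    change c * f n = 0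
    rw [hf n hn, mul_zero]

/-- `W` is the bilateral weighted shift `W e_n = w_n e_(n+1)` -/
def IsShift (w : ℤ → ℂ) (W : EllTwo →L[ℂ] EllTwo) : Prop :=
  ∀ n : ℤ, W (e n) = w n • e (n + 1)

/-- the closed invariant subspaces of `W` are exactly `{0}`, the whole space and the `M_k` -/
def OnlyObvious (W : EllTwo →L[ℂ] EllTwo) : Prop :=
  ∀ M : Submodule ℂ EllTwo, IsInvariant W M ↔ (M = ⊥ ∨ M = ⊤ ∨ ∃ k : ℤ, M = tail k)

theorem mem_tail (k : ℤ) (f : EllTwo) : f ∈ tail k ↔ ∀ n : ℤ, n < k → f n = 0 := Iff.rfl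

theorem isClosed_tail (k : ℤ) : IsClosed (tail k : Set EllTwo) := by
  have h1 : (tail k : Set EllTwo) = ⋂ n : {n : ℤ // n < k},
      {f : EllTwo | inner ℂ (Q87.Uni.ev n.1) f = 0} := by
    ext f
    simp only [SetLike.mem_coe, mem_tail, Set.mem_iInter, Set.mem_ofPred_eq, Q87.Uni.inner_ev]
    exact ⟨fun h n => h n.1 n.2, fun h n hn => h ⟨n, hn⟩⟩
  rw [h1]
  apply isClosed_iInter
  intro n
  exact isClosed_eq (continuous_const.inner continuous_id) continuous_const

theorem onlyObvious (p : ℝ) (w : ℤ → ℂ) (h : Q87.Uni.Geo p w) (W : EllTwo →L[ℂ] EllTwo)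
    (hW : IsShift w W) : OnlyObvious W := by
  intro M
  constructor
  · rintro ⟨hc, hM⟩
    rcases Q87.Uni.lat h hW M hc hM with h1 | h1 | ⟨k, h1⟩
    · exact Or.inl h1
    · exact Or.inr (Or.inl h1)
    · exact Or.inr (Or.inr ⟨k, by ext f; exact h1 f⟩)
  · rintro (h1 | h1 | ⟨k, h1⟩)
    · rw [h1]
      refine ⟨isClosed_singleton, fun x hx => ?_⟩
      rw [Submodule.mem_bot] at hx ⊢
      rw [hx, map_zero]
    · rw [h1]
      exact ⟨isClosed_univ, fun x _ => trivial⟩
    · rw [h1]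
      refine ⟨isClosed_tail k, fun x hx => ?_⟩
      rw [mem_tail] at hx ⊢
      intro n hn
      have h2 := Q87.Uni.coord w W hW x (n - 1)
      rw [sub_add_cancel] at h2
      rw [h2, hx (n - 1) (by omega), mul_zero]

theorem general (q : ℝ) (w : ℤ → ℂ) (hq : q < 1) (hne : ∀ n, w n ≠ 0)
    (hr : ∀ n : ℤ, 0 ≤ n → ‖w (n + 1)‖ ≤ q * ‖w n‖)
    (hl : ∀ n : ℤ, n < 0 → ‖w (n - 1)‖ ≤ q * ‖w n‖) :
    (∃ W : EllTwo →L[ℂ] EllTwo, IsShift w W) ∧
      ∀ W : EllTwo →L[ℂ] EllTwo, IsShift w W → OnlyObvious W := by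
  have hq0 : 0 < q := by
    have h1 := hr 0 (le_refl _)
    have h2 : 0 < ‖w (0 + 1)‖ := norm_pos_iff.2 (hne _)
    by_contra hc
    push Not at hc
    have h3 : q * ‖w 0‖ ≤ 0 := mul_nonpos_of_nonpos_of_nonneg hc (norm_nonneg _)
    linarith
  have hgeo : Q87.Uni.Geo (Real.sqrt q) w :=
    ⟨Real.sqrt_pos.2 hq0, by rw [Real.sqrt_lt' one_pos]; simpa using hq, hne,
      by rw [Real.sq_sqrt hq0.le]; exact hr, by rw [Real.sq_sqrt hq0.le]; exact hl⟩
  obtain ⟨B, hB⟩ := hgeo.bdd
  exact ⟨Q87.Uni.exists_shift w B hB, fun W hW => onlyObvious _ w hgeo W hW⟩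

/-- **Halmos's question.** The bilateral weighted shift `W e_n = 2^(-|n|) e_(n+1)` on `ℓ²(ℤ)` has
no closed invariant subspaces besides `{0}`, the whole space and the `M_k`, `k ∈ ℤ`. More generally
this is so for all nonzero weights decreasing at least geometrically in both directions. -/
theorem result :
    ((∃ W : EllTwo →L[ℂ] EllTwo, IsShift (fun n => (2 : ℂ) ^ (-|n|)) W) ∧
      ∀ W : EllTwo →L[ℂ] EllTwo, IsShift (fun n => (2 : ℂ) ^ (-|n|)) W → OnlyObvious W) ∧
    ∀ (q : ℝ) (w : ℤ → ℂ), q < 1 → (∀ n, w n ≠ 0) →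
      (∀ n : ℤ, 0 ≤ n → ‖w (n + 1)‖ ≤ q * ‖w n‖) →
      (∀ n : ℤ, n < 0 → ‖w (n - 1)‖ ≤ q * ‖w n‖) →
      (∃ W : EllTwo →L[ℂ] EllTwo, IsShift w W) ∧
        ∀ W : EllTwo →L[ℂ] EllTwo, IsShift w W → OnlyObvious W := by
  refine ⟨?_, general⟩
  apply general (1 / 2) (fun n => (2 : ℂ) ^ (-|n|)) (by norm_num)
  · intro n
    exact zpow_ne_zero _ two_ne_zero
  · intro n hn
    rw [norm_zpow, norm_zpow, Complex.norm_ofNat, abs_of_nonneg hn, abs_of_nonneg (by omega),
      show -(n + 1) = -1 + -n by ring, zpow_add₀ two_ne_zero, zpow_neg_one]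
    norm_num
  · intro n hn
    rw [norm_zpow, norm_zpow, Complex.norm_ofNat, abs_of_neg hn, abs_of_neg (by omega),
      show - -(n - 1) = -1 + - -n by ring, zpow_add₀ two_ne_zero, zpow_neg_one]
    norm_num

end Pool.Agent.Results.MP_1e8505_an.HalmosShift
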